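import Pool.Agent.H67.CLV.L2

/-!
# Row JI: the counting function is the mean value (helper67)
-/

set_option autoImplicit false

open Finset MeasureTheory

namespace Pool.Agent.H67.CLV

open Pool.Agent.H24.CL

/-- the sum over `1 ≤ n ≤ N` -/
noncomputable def f1 {k : ℕ} (N : ℕ) (a : X k) : ℂ := ∑ n ∈ Finset.Icc 1 N, e (P a n)

theorem f1_norm (hPF : T_PF) {k : ℕ} (N : ℕ) (a : X k) : ‖f1 N a‖ = ‖f N (phi 1 1 a)‖ := by
  have h1 : f1 N a = e (P a 1) * f N (phi 1 1 a) := by
    unfold f1 f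
    rw [Finset.mul_sum]
    have h2 : Finset.Icc 1 N = (range N).image fun m => 1 + 1 * m := by
      ext x
      simp only [Finset.mem_Icc, Finset.mem_image, Finset.mem_range]
      constructor
      · rintro ⟨h1, h2⟩
        exact ⟨x - 1, by omega, by omega⟩
      · rintro ⟨m, hm, rfl⟩
        omega
    rw [h2, Finset.sum_image (fun x _ y _ h => by simpa using h)]
    refine Finset.sum_congr rfl fun m _ => ?_
    rw [hPF.1 k 1 1 m a, e_add]
  rw [h1, norm_mul, e_norm, one_mul]

theorem f1_moment {k : ℕ} (s N : ℕ) :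
    ∫ a : X k, ‖f1 N a‖ ^ (2 * s) = ((Pool.Agent.H22.VM.sols s k N).card : ℝ) := by
  classical
  have h1 : ∀ a : X k, ‖f1 N a‖ ^ (2 * s) =
      ‖∑ x ∈ Fintype.piFinset (fun _ : Fin s => Finset.Icc 1 N),
        chi (fun i : Fin k => ∑ j, ((x j : ℤ) ^ (i.val + 1))) a‖ ^ 2 := by
    intro a
    rw [mul_comm 2 s, pow_mul, ← norm_pow]
    congr 2
    have h2 : (f1 N a) ^ s = ∏ _j : Fin s, ∑ n ∈ Finset.Icc 1 N, e (P a n) := by
      rw [Finset.prod_const, Finset.card_univ, Fintype.card_fin]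
      rfl
    rw [h2, Finset.prod_univ_sum]
    refine Finset.sum_congr rfl fun x _ => ?_
    rw [← e_sum]
    unfold chi
    congr 1
    have h3 : ∀ j : Fin s, P a (x j) = ∑ i : Fin k, ((x j : ℤ) ^ (i.val + 1)) • a i := by
      intro j
      unfold P
      refine Finset.sum_congr rfl fun i _ => ?_
      rw [← natCast_zsmul, Nat.cast_pow]
    simp_rw [h3]
    rw [Finset.sum_comm]
    exact Finset.sum_congr rfl fun i _ => (Finset.sum_smul).symm
  simp_rw [h1]
  rw [parseval]
  congr 1
  unfold Pool.Agent.H22.VM.sols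
  congr 1
  refine Finset.filter_congr fun p _ => ?_
  constructor
  · intro h j
    have h3 := congrFun h j
    exact_mod_cast h3
  · intro h
    funext j
    exact_mod_cast h j

theorem pf_JI (_ : T_EX) (hPF : T_PF) (hMP : T_MP) : T_JI := by
  intro s k N _ _
  rw [← f1_moment]
  obtain ⟨hc, _, hm⟩ := hMP k 1 1 le_rfl
  have h1 : ∀ a : X k, ‖f1 N a‖ ^ (2 * s) = ‖f N (phi 1 1 a)‖ ^ (2 * s) := fun a => by
    rw [f1_norm hPF]
  simp_rw [h1]
  have hf : Continuous (fun a : X k => ‖f N a‖ ^ (2 * s)) := by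
    have : Continuous (fun a : X k => f N a) := by
      simp_rw [f_eq]
      exact continuous_finsetSum _ fun n _ => chi_cont _
    exact this.norm.pow _
  have h2 := integral_map (μ := (volume : Measure (X k))) hc.measurable.aemeasurable
    (f := fun a : X k => ‖f N a‖ ^ (2 * s)) hf.aestronglyMeasurable
  rw [← h2, hm.map_eq]

end Pool.Agent.H67.CLV
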