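import Pool.Agent.H67.CLV.Chr

/-!
# Row TR: the truncated second moment (helper67)
-/

set_option autoImplicit false

open Finset MeasureTheory

namespace Pool.Agent.H67.CLV

open Pool.Agent.H24.CL

theorem pf_TR (hSV : T_SV) (hEX : T_EX) : T_TR := by
  obtain ⟨_, _, _, _, _, _, _, hcu, _⟩ := hEX
  intro k θ hk hθ hθ1
  obtain ⟨C, hC, hS⟩ := hSV k ((KN k : ℝ) - θ) hk (by linarith) (by linarith)
  refine ⟨C, hC, ?_⟩
  intro N M h hN hM hh
  set K : ℝ := (KN k : ℝ) with hK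
  set s : ℝ := K - θ with hs
  have hK6 : (6 : ℝ) ≤ K := by
    have h1 : 6 ≤ KN k := by
      unfold KN
      have h2 : 3 * (3 + 1) ≤ k * (k + 1) := Nat.mul_le_mul hk (by omega)
      omega
    rw [hK]
    exact_mod_cast h1
  have hs1 : 1 ≤ s := by linarith
  have hN0 : (0 : ℝ) < N := by exact_mod_cast hN
  set S : Set (X k) := {a : X k | h ≤ M * ‖u N a‖ ^ 2} with hSdef
  have hcf : Continuous fun a : X k => ‖f N a‖ ^ (2 * s) := by
    have h1 : Continuous fun a : X k => f N a := by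
      have h2 : (fun a : X k => f N a) = fun a => u N a * (N : ℂ) := by
        funext a
        have hNC : (N : ℂ) ≠ 0 := by exact_mod_cast hN0.ne'
        unfold u
        rw [div_mul_cancel₀ _ hNC]
      rw [h2]
      exact (hcu k N).mul continuous_const
    exact h1.norm.rpow_const fun _ => Or.inr (by linarith)
  have hcu2 : Continuous fun a : X k => M * ‖u N a‖ ^ 2 :=
    continuous_const.mul ((hcu k N).norm.pow 2)
  have hSm : MeasurableSet S := (isClosed_le continuous_const hcu2).measurableSet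
  have key : ∀ a ∈ S, M * ‖u N a‖ ^ 2 ≤
      (h ^ (1 - s) * M ^ s * (N : ℝ) ^ (-(2 * s))) * ‖f N a‖ ^ (2 * s) := by
    intro a ha
    have ha' : h ≤ M * ‖u N a‖ ^ 2 := ha
    have hy : 0 < M * ‖u N a‖ ^ 2 := lt_of_lt_of_le hh ha'
    have hu : 0 ≤ ‖u N a‖ := norm_nonneg _
    have h1 : M * ‖u N a‖ ^ 2 = (M * ‖u N a‖ ^ 2) ^ (1 - s) * (M * ‖u N a‖ ^ 2) ^ s := by
      rw [← Real.rpow_add hy]
      simp
    have h2 : (M * ‖u N a‖ ^ 2) ^ (1 - s) ≤ h ^ (1 - s) :=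
      Real.rpow_le_rpow_of_nonpos hh ha' (by linarith)
    have h3 : (M * ‖u N a‖ ^ 2) ^ s = M ^ s * ((N : ℝ) ^ (-(2 * s)) * ‖f N a‖ ^ (2 * s)) := by
      rw [Real.mul_rpow hM.le (by positivity)]
      congr 1
      have h4 : ‖u N a‖ = ‖f N a‖ / N := by
        unfold u
        rw [norm_div, Complex.norm_natCast]
      rw [h4, ← Real.rpow_natCast, ← Real.rpow_mul (by positivity), Real.div_rpow (norm_nonneg _)
        hN0.le, Real.rpow_neg hN0.le]
      push_cast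
      rw [div_eq_mul_inv, mul_comm]
    calc M * ‖u N a‖ ^ 2 = (M * ‖u N a‖ ^ 2) ^ (1 - s) * (M * ‖u N a‖ ^ 2) ^ s := h1
      _ ≤ h ^ (1 - s) * (M * ‖u N a‖ ^ 2) ^ s :=
        mul_le_mul_of_nonneg_right h2 (Real.rpow_nonneg hy.le _)
      _ = _ := by
        rw [h3]
        ring
  have hpos : 0 ≤ h ^ (1 - s) * M ^ s * (N : ℝ) ^ (-(2 * s)) := by positivity
  have h1 : ∫ a in S, M * ‖u N a‖ ^ 2 ≤
      (h ^ (1 - s) * M ^ s * (N : ℝ) ^ (-(2 * s))) * (C * (N : ℝ) ^ s) := by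
    calc ∫ a in S, M * ‖u N a‖ ^ 2 ≤
        ∫ a in S, (h ^ (1 - s) * M ^ s * (N : ℝ) ^ (-(2 * s))) * ‖f N a‖ ^ (2 * s) :=
          setIntegral_mono_on (intble hcu2).integrableOn
            (intble (continuous_const.mul hcf)).integrableOn hSm key
      _ ≤ ∫ a : X k, (h ^ (1 - s) * M ^ s * (N : ℝ) ^ (-(2 * s))) * ‖f N a‖ ^ (2 * s) :=
          setIntegral_le_integral (intble (continuous_const.mul hcf))
            (Filter.Eventually.of_forall fun a => by
              show (0 : ℝ) ≤ _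
              positivity)
      _ = (h ^ (1 - s) * M ^ s * (N : ℝ) ^ (-(2 * s))) * ∫ a : X k, ‖f N a‖ ^ (2 * s) :=
          integral_const_mul _ _
      _ ≤ _ := mul_le_mul_of_nonneg_left (hS N hN) hpos
  have h2 : 0 ≤ ((N : ℝ) / M) ^ (KN k) := by positivity
  refine (mul_le_mul_of_nonneg_left h1 h2).trans (le_of_eq ?_)
  have h3 : ((N : ℝ) / M) ^ (KN k) = (N : ℝ) ^ K * M ^ (-K) := by
    rw [← Real.rpow_natCast, Real.div_rpow hN0.le hM.le, Real.rpow_neg hM.le, div_eq_mul_inv]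
  have h4 : ((N : ℝ) / M) ^ θ = (N : ℝ) ^ θ * M ^ (-θ) := by
    rw [Real.div_rpow hN0.le hM.le, Real.rpow_neg hM.le, div_eq_mul_inv]
  have h5 : (-(K - 1 - θ)) = 1 - s := by
    rw [hs]
    ring
  rw [h3, h4, h5]
  have h6 : (N : ℝ) ^ K * (N : ℝ) ^ (-(2 * s)) * (N : ℝ) ^ s = (N : ℝ) ^ θ := by
    rw [← Real.rpow_add hN0, ← Real.rpow_add hN0]
    congr 1
    rw [hs]
    ring
  have h7 : M ^ (-K) * M ^ s = M ^ (-θ) := by
    rw [← Real.rpow_add hM]
    congr 1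
    rw [hs]
    ring
  rw [← h6, ← h7]
  ring

end Pool.Agent.H67.CLV
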