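import Pool.Agent.H24.CL.Targets

/-!
# Characters of the torus and Parseval for finite sums (helper67, for rows L2 and JI)
-/

set_option autoImplicit false

open Finset MeasureTheory

namespace Pool.Agent.H67.CLV

open Pool.Agent.H24.CL

/-- the character with the frequency `z` -/
noncomputable def chi {k : ℕ} (z : Fin k → ℤ) (a : X k) : ℂ := e (∑ i, z i • a i)

theorem e_cont : Continuous e := by
  unfold e
  exact continuous_subtype_val.comp AddCircle.continuous_toCircle

theorem e_add (x y : UnitAddCircle) : e (x + y) = e x * e y := by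
  unfold e
  rw [AddCircle.toCircle_add]
  rfl

theorem e_zero : e 0 = 1 := by
  unfold e
  rw [AddCircle.toCircle_zero]
  rfl

theorem e_norm (x : UnitAddCircle) : ‖e x‖ = 1 := by
  unfold e
  exact Circle.norm_coe _

theorem e_neg (x : UnitAddCircle) : e (-x) = (starRingEnd ℂ) (e x) := by
  unfold e
  rw [AddCircle.toCircle_neg, Circle.coe_inv_eq_conj]

theorem e_sum {ι : Type} (s : Finset ι) (g : ι → UnitAddCircle) :
    e (∑ i ∈ s, g i) = ∏ i ∈ s, e (g i) := by
  classical
  induction s using Finset.induction_on with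
  | empty => simp [e_zero]
  | insert a s ha ih => rw [Finset.sum_insert ha, Finset.prod_insert ha, e_add, ih]

theorem chi_cont {k : ℕ} (z : Fin k → ℤ) : Continuous (chi z) := by
  unfold chi
  refine e_cont.comp ?_
  refine continuous_finsetSum _ fun i _ => ?_
  exact (continuous_apply i).zsmul (z i)

theorem chi_zero {k : ℕ} (a : X k) : chi (0 : Fin k → ℤ) a = 1 := by
  unfold chi
  simp [e_zero]

theorem chi_add {k : ℕ} (z : Fin k → ℤ) (a b : X k) : chi z (a + b) = chi z a * chi z b := by
  unfold chi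
  rw [← e_add]
  congr 1
  rw [← Finset.sum_add_distrib]
  exact Finset.sum_congr rfl fun i _ => by rw [Pi.add_apply, smul_add]

theorem chi_sub {k : ℕ} (z w : Fin k → ℤ) (a : X k) :
    chi (z - w) a = chi z a * (starRingEnd ℂ) (chi w a) := by
  unfold chi
  rw [← e_neg, ← e_add]
  congr 1
  rw [← sub_eq_add_neg, ← Finset.sum_sub_distrib]
  exact Finset.sum_congr rfl fun i _ => by rw [Pi.sub_apply, sub_smul]

theorem chi_norm {k : ℕ} (z : Fin k → ℤ) (a : X k) : ‖chi z a‖ = 1 := e_norm _

theorem intble {k : ℕ} {E : Type} [NormedAddCommGroup E] {g : X k → E} (hg : Continuous g) :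
    Integrable g (volume : Measure (X k)) :=
  hg.integrable_of_hasCompactSupport (HasCompactSupport.of_compactSpace g)

theorem vol_univ {k : ℕ} : (volume : Measure (X k)).real Set.univ = 1 := by
  rw [Measure.real, volume_pi, Measure.pi_univ]
  simp

theorem e_half : e ((((1 : ℝ) / 2 : ℝ)) : UnitAddCircle) = -1 := by
  unfold e
  have h : (((1 : ℝ) / 2 : ℝ) : UnitAddCircle) = ((1 / 2 : ℝ) : AddCircle (1 : ℝ)) := rfl
  rw [h, AddCircle.toCircle_apply_mk]
  rw [Circle.coe_exp]
  have h2 : ((2 * Real.pi / 1 * (1 / 2) : ℝ) : ℂ) * Complex.I = Real.pi * Complex.I := by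
    push_cast
    ring
  rw [h2]
  exact Complex.exp_pi_mul_I

theorem int_chi {k : ℕ} (z : Fin k → ℤ) (hz : z ≠ 0) :
    ∫ a : X k, chi z a = 0 := by
  classical
  obtain ⟨i, hi⟩ : ∃ i, z i ≠ 0 := by
    by_contra h
    push Not at h
    exact hz (funext h)
  set t : X k := Pi.single i ((((1 : ℝ) / (2 * z i) : ℝ)) : UnitAddCircle) with ht
  have h1 : chi z t = -1 := by
    unfold chi
    have : (∑ j, z j • t j) = (((1 : ℝ) / 2 : ℝ) : UnitAddCircle) := by
      rw [Finset.sum_eq_single i]
      · rw [ht, Pi.single_eq_same, ← AddCircle.coe_zsmul]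
        congr 1
        have : (z i : ℝ) ≠ 0 := by exact_mod_cast hi
        rw [zsmul_eq_mul]
        field_simp
      · intro j _ hj
        rw [ht, Pi.single_eq_of_ne hj, smul_zero]
      · intro h
        exact absurd (Finset.mem_univ i) h
    rw [this]
    exact e_half
  have h2 : ∫ a : X k, chi z (a + t) = ∫ a : X k, chi z a :=
    integral_add_right_eq_self (fun a => chi z a) t
  have h3 : ∫ a : X k, chi z (a + t) = -∫ a : X k, chi z a := by
    rw [← integral_neg]
    refine integral_congr_ae (Filter.Eventually.of_forall fun a => ?_)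
    show chi z (a + t) = -chi z a
    rw [chi_add, h1]
    ring
  rw [h3] at h2
  linear_combination (-1 / 2 : ℂ) * h2

/-- Parseval for a finite sum of characters -/
theorem parseval {k : ℕ} {ι : Type} [DecidableEq ι] (I : Finset ι) (z : ι → Fin k → ℤ) :
    ∫ a : X k, ‖∑ i ∈ I, chi (z i) a‖ ^ 2 =
      (((I ×ˢ I).filter fun p => z p.1 = z p.2).card : ℝ) := by
  have h1 : ∀ a : X k, ((‖∑ i ∈ I, chi (z i) a‖ ^ 2 : ℝ) : ℂ) =
      ∑ p ∈ I ×ˢ I, chi (z p.1 - z p.2) a := by
    intro a
    rw [Finset.sum_product]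
    push_cast
    rw [← Complex.mul_conj', map_sum, Finset.sum_mul_sum]
    exact Finset.sum_congr rfl fun i _ => Finset.sum_congr rfl fun j _ => (chi_sub _ _ _).symm
  have h2 : ((∫ a : X k, ‖∑ i ∈ I, chi (z i) a‖ ^ 2 : ℝ) : ℂ) =
      (((I ×ˢ I).filter fun p => z p.1 = z p.2).card : ℂ) := by
    rw [← integral_complex_ofReal]
    simp_rw [h1]
    rw [integral_finsetSum _ fun p _ => intble (chi_cont _)]
    have h3 : ∀ p ∈ I ×ˢ I, ∫ a : X k, chi (z p.1 - z p.2) a =
        if z p.1 = z p.2 then (1 : ℂ) else 0 := by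
      intro p _
      split_ifs with h
      · rw [h, sub_self]
        have : ∀ a : X k, chi (0 : Fin k → ℤ) a = 1 := chi_zero
        simp_rw [this]
        rw [integral_const, vol_univ]
        simp
      · exact int_chi _ (sub_ne_zero.mpr h)
    rw [Finset.sum_congr rfl h3, Finset.sum_ite, Finset.sum_const_zero, add_zero]
    simp
  exact_mod_cast h2

end Pool.Agent.H67.CLV
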