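import Pool.Agent.H67.CLV.Chr

/-!
# Row L2: the second moment (helper67)
-/

set_option autoImplicit false

open Finset MeasureTheory

namespace Pool.Agent.H67.CLV

open Pool.Agent.H24.CL

theorem P_eq {k : ℕ} (a : X k) (n : ℕ) :
    e (P a n) = chi (fun i : Fin k => ((n : ℤ) ^ (i.val + 1))) a := by
  unfold chi P
  refine congrArg e ?_
  refine Finset.sum_congr rfl fun i _ => ?_
  rw [← natCast_zsmul, Nat.cast_pow]

theorem f_eq {k : ℕ} (N : ℕ) (a : X k) :
    f N a = ∑ n ∈ range N, chi (fun i : Fin k => ((n : ℤ) ^ (i.val + 1))) a := by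
  unfold f
  exact Finset.sum_congr rfl fun n _ => P_eq a n

theorem pf_L2 (_ : T_EX) : T_L2 := by
  intro k N hk hN
  have h1 : ∫ a : X k, ‖f N a‖ ^ 2 = (N : ℝ) := by
    simp_rw [f_eq]
    rw [parseval]
    have h2 : ((range N ×ˢ range N).filter fun p : ℕ × ℕ =>
        (fun i : Fin k => ((p.1 : ℤ) ^ (i.val + 1))) = fun i : Fin k => ((p.2 : ℤ) ^ (i.val + 1))) =
        (range N).image fun n => (n, n) := by
      ext ⟨x, y⟩
      simp only [Finset.mem_filter, Finset.mem_product, Finset.mem_range, Finset.mem_image,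
        Prod.mk.injEq]
      constructor
      · rintro ⟨⟨hx, hy⟩, h⟩
        have h3 := congrFun h ⟨0, hk⟩
        simp only [zero_add, pow_one, Nat.cast_inj] at h3
        exact ⟨x, hx, rfl, h3⟩
      · rintro ⟨n, hn, rfl, rfl⟩
        exact ⟨⟨hn, hn⟩, rfl⟩
    rw [h2, Finset.card_image_of_injective _ (fun x y h => (Prod.mk.inj h).1), Finset.card_range]
  have hN0 : (0 : ℝ) < N := by exact_mod_cast hN
  have h4 : ∀ a : X k, ‖u N a‖ ^ 2 = ‖f N a‖ ^ 2 * (1 / (N : ℝ) ^ 2) := by
    intro a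
    unfold u
    rw [norm_div, Complex.norm_natCast, div_pow]
    ring
  simp_rw [h4]
  rw [integral_mul_const, h1]
  field_simp

end Pool.Agent.H67.CLV
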